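import Pool.Agent.Q75.HM.Stm

set_option autoImplicit false

/-!
# Project HM (helper75), job PU: the upper bound for the Perron class
-/

namespace Pool.Agent.Q210.HM

open Complex Set Metric Filter Topology MeasureTheory
open Pool.Agent.Q75.HM

open scoped Real ComplexConjugate

/-- The mean value property of the real part. -/
theorem mean_re {C : Set ℂ} {Φ : ℂ → ℂ} (hΦ : DifferentiableOn ℂ Φ C) {a : ℂ} {r : ℝ}
    (hr : 0 < r) (hsub : closedBall a r ⊆ C) :
    (∫ θ in (0 : ℝ)..(2 * π), (Φ (circleMap a r θ)).re) = 2 * π * (Φ a).re ∧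
      Continuous fun θ : ℝ => (Φ (circleMap a r θ)).re := by
  have hcont : Continuous fun θ : ℝ => Φ (circleMap a r θ) := by
    refine hΦ.continuousOn.comp_continuous (continuous_circleMap a r) fun θ => hsub ?_
    exact circleMap_mem_closedBall a hr.le θ
  refine ⟨?_, Complex.continuous_re.comp hcont⟩
  have hd : DiffContOnCl ℂ Φ (ball a |r|) := by
    refine DifferentiableOn.diffContOnCl ?_
    rw [abs_of_pos hr, closure_ball a hr.ne']
    exact hΦ.mono hsub
  have h := hd.circleAverage
  rw [Real.circleAverage_def] at h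
  have h2 : (∫ θ in (0 : ℝ)..(2 * π), Φ (circleMap a r θ)) = (2 * π : ℝ) • Φ a := by
    rw [← h, smul_smul, mul_inv_cancel₀ (by positivity), one_smul]
  have h3 : (∫ θ in (0 : ℝ)..(2 * π), Complex.reCLM (Φ (circleMap a r θ))) =
      Complex.reCLM (∫ θ in (0 : ℝ)..(2 * π), Φ (circleMap a r θ)) :=
    Complex.reCLM.intervalIntegral_comp_comm (hcont.intervalIntegrable (μ := volume) 0 (2 * π))
  simp only [Complex.reCLM_apply] at h3
  rw [h3, h2, Complex.real_smul, Complex.re_ofReal_mul]

/-- the minimum with `1` of the real part is super-mean -/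
theorem mean_min {C : Set ℂ} {Φ : ℂ → ℂ} (hΦ : DifferentiableOn ℂ Φ C) {a : ℂ} {r : ℝ}
    (hr : 0 < r) (hsub : closedBall a r ⊆ C) :
    (∫ θ in (0 : ℝ)..(2 * π), min 1 (Φ (circleMap a r θ)).re) ≤ 2 * π * min 1 (Φ a).re := by
  obtain ⟨h1, hc⟩ := mean_re hΦ hr hsub
  have hpi : (0 : ℝ) ≤ 2 * π := by positivity
  have hi : IntervalIntegrable (fun θ : ℝ => min 1 (Φ (circleMap a r θ)).re) volume 0 (2 * π) :=
    (continuous_const.min hc).intervalIntegrable _ _
  rcases min_choice 1 (Φ a).re with h | h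
  · rw [h, mul_one]
    calc (∫ θ in (0 : ℝ)..(2 * π), min 1 (Φ (circleMap a r θ)).re) ≤ ∫ _θ in (0 : ℝ)..(2 * π), (1 : ℝ) :=
          intervalIntegral.integral_mono_on hpi hi (by simp) fun θ _ => min_le_left _ _
      _ = 2 * π := by simp
  · rw [h, ← h1]
    exact intervalIntegral.integral_mono_on hpi hi (hc.intervalIntegrable _ _) fun θ _ => min_le_right _ _

theorem re_pos {p z : ℂ} (h : z.re < p.re) : 1 < (1 + 1 / (p - z)).re := by
  rw [Complex.add_re, Complex.one_re, one_div, Complex.inv_re]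
  have h1 : 0 < (p - z).re := by rw [Complex.sub_re]; linarith
  have h2 : 0 < Complex.normSq (p - z) := by
    rw [Complex.normSq_pos]
    intro h3
    rw [h3] at h1
    simp at h1
  have := div_pos h1 h2
  linarith

theorem logp {p z : ℂ} (h : z.re < p.re) : 0 ≤ Real.log ‖1 + 1 / (p - z)‖ := by
  refine Real.log_nonneg ?_
  have h1 := re_pos h
  have h2 := Complex.abs_re_le_norm (1 + 1 / (p - z))
  have h3 := le_abs_self (1 + 1 / (p - z)).re
  linarith

theorem logd {p : ℂ} {C : Set ℂ} (h : ∀ z ∈ C, z.re < p.re) :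
    DifferentiableOn ℂ (fun z => Complex.log (1 + 1 / (p - z))) C := by
  intro z hz
  have h0 : p - z ≠ 0 := by
    intro h1
    have h2 := h z hz
    have h3 : (p - z).re = 0 := by rw [h1]; simp
    rw [Complex.sub_re] at h3
    linarith
  have h1 : DifferentiableAt ℂ (fun z => 1 + 1 / (p - z)) z := by
    refine (differentiableAt_const _).add ((differentiableAt_const _).div ?_ h0)
    exact (differentiableAt_const _).sub differentiableAt_id
  refine (h1.clog ?_).differentiableWithinAt
  exact Or.inl (by have := re_pos (h z hz); linarith)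

/-- `log ‖1 + 1 / (p - z)‖` tends to infinity at `p` -/
theorem log_large (p : ℂ) (A : ℝ) : ∀ᶠ z in 𝓝[≠] p, A ≤ Real.log ‖1 + 1 / (p - z)‖ := by
  have h1 : Tendsto (fun z : ℂ => ‖p - z‖) (𝓝[≠] p) (𝓝[>] 0) := by
    rw [tendsto_nhdsWithin_iff]
    constructor
    · have : Tendsto (fun z : ℂ => ‖p - z‖) (𝓝 p) (𝓝 ‖p - p‖) :=
        (continuous_const.sub continuous_id).norm.tendsto p
      rw [sub_self, norm_zero] at this
      exact this.mono_left nhdsWithin_le_nhds
    · filter_upwards [self_mem_nhdsWithin] with z hz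
      have hz' : z ≠ p := hz
      exact norm_pos_iff.2 (sub_ne_zero.2 hz'.symm)
  have h2 := (tendsto_inv_nhdsGT_zero.comp h1).eventually_ge_atTop (Real.exp A + 1)
  filter_upwards [h2] with z hz
  simp only [Function.comp_apply] at hz
  have h3 : Real.exp A ≤ ‖1 + 1 / (p - z)‖ := by
    have h4 : ‖1 / (p - z)‖ ≤ ‖1 + 1 / (p - z)‖ + 1 := by
      calc ‖1 / (p - z)‖ = ‖(1 + 1 / (p - z)) - 1‖ := by rw [add_sub_cancel_left]
        _ ≤ ‖1 + 1 / (p - z)‖ + ‖(1 : ℂ)‖ := norm_sub_le _ _
        _ = _ := by rw [norm_one]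
    rw [norm_div, norm_one, one_div] at h4
    linarith
  rw [Real.le_log_iff_exp_le (lt_of_lt_of_le (Real.exp_pos A) h3)]
  exact h3

theorem U0_pos (ζ : ℂ) : 0 < U0 ζ := by
  unfold U0
  have h := Real.arctan_lt_pi_div_two (-(2 * ζ.re) / (1 - ‖ζ‖ ^ 2))
  have hpi := Real.pi_pos
  have h2 : 2 / π * Real.arctan (-(2 * ζ.re) / (1 - ‖ζ‖ ^ 2)) < 2 / π * (π / 2) :=
    mul_lt_mul_of_pos_left h (by positivity)
  have h3 : 2 / π * (π / 2) = 1 := by field_simp
  linarith

/-- **Job PU.** -/
theorem t_PU : S_WD → S_QB → S_SY → S_UZ → S_PU := by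
  intro hWD hQB hSY hUZ G m c M hG hc hcG hM hm ε hε
  obtain ⟨hDm, hstrip, -, -⟩ := hWD G m c M hG hc hcG hM
  obtain ⟨φ, hφ, hφc, hφr, hφn⟩ := hSY G m c M hG hc hcG hM
  obtain ⟨⟨F, hFd, hF⟩, hU⟩ := hUZ
  set C : Set ℂ := {z | z ∈ G ∧ z.re < m} with hC
  have hCW : C ⊆ Wd G m := fun z hz => Or.inl (Or.inl ⟨hz.2, hz.1⟩)
  have hmaps : MapsTo φ (Wd G m) (ball 0 1) := hφ.2.1.mapsTo
  -- the height of the opening
  set S : Set ℝ := {y | HS m y ⊆ G} with hS
  have hSb : BddAbove S := by
    refine ⟨M, fun y hy => ?_⟩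
    by_contra hlt
    push Not at hlt
    have hM0 : 0 < M := by
      have h1 : ((m - 1 : ℝ) : ℂ) ∈ G := hcG ⟨by simp, by simpa using hc⟩
      have h2 := hM _ h1
      simp at h2
      exact h2
    have h1 : (⟨m - 1, M⟩ : ℂ) ∈ G := hy ⟨by simp, by simpa [abs_of_pos hM0] using hlt⟩
    have h2 := hM _ h1
    simp only at h2
    exact absurd h2 (not_lt.2 (le_abs_self M))
  have hcS : c ∈ S := hcG
  set H := sSup S with hH
  -- the points at the ends of the opening
  set pp : ℂ := ⟨m, H⟩ with hpp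
  set pm : ℂ := ⟨m, -H⟩ with hpm
  set s : ℂ → ℝ := fun z => Real.log ‖1 + 1 / (pp - z)‖ + Real.log ‖1 + 1 / (pm - z)‖ with hs
  have hs1 : ∀ z : ℂ, z.re < m → 0 ≤ Real.log ‖1 + 1 / (pp - z)‖ := fun z hz => logp hz
  have hs2 : ∀ z : ℂ, z.re < m → 0 ≤ Real.log ‖1 + 1 / (pm - z)‖ := fun z hz => logp hz
  have hs0 : ∀ z : ℂ, z.re < m → 0 ≤ s z := fun z hz => add_nonneg (hs1 z hz) (hs2 z hz)
  have h0C : (0 : ℂ) ∈ C := ⟨hcG ⟨by simpa using hm, by simpa using hc⟩, by simpa using hm⟩
  have hs00 := hs0 0 h0C.2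
  set η : ℝ := ε / (s 0 + 1) with hη
  have hη0 : 0 < η := by positivity
  have hηs : η * s 0 ≤ ε := by
    rw [hη, div_mul_eq_mul_div, div_le_iff₀ (by positivity)]
    nlinarith
  -- the function
  set Φ : ℂ → ℂ := fun z => F (φ z) + (η : ℂ) * (Complex.log (1 + 1 / (pp - z)) +
    Complex.log (1 + 1 / (pm - z))) with hΦ
  have hΦd : DifferentiableOn ℂ Φ C := by
    refine DifferentiableOn.add ?_ (((logd fun z hz => hz.2).add (logd fun z hz => hz.2)).const_mul _)
    exact hFd.comp (hφ.1.mono hCW) fun z hz => hmaps (hCW hz)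
  have hΦre : ∀ z ∈ C, (Φ z).re = U0 (φ z) + η * s z := by
    intro z hz
    simp only [hΦ, hs]
    rw [Complex.add_re, Complex.re_ofReal_mul, Complex.add_re, Complex.log_re, Complex.log_re,
      hF _ (hmaps (hCW hz))]
  set u : ℂ → ℝ := fun z => min 1 (Φ z).re with hu
  have hucont : ContinuousOn u C :=
    continuousOn_const.inf (Complex.continuous_re.comp_continuousOn hΦd.continuousOn)
  refine ⟨u 0, ⟨u, hucont.lowerSemicontinuousOn, ?_, ?_, ?_, rfl⟩, ?_⟩
  · intro z hz
    refine ⟨le_min zero_le_one ?_, min_le_left _ _⟩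
    rw [hΦre z hz]
    have h1 := U0_pos (φ z)
    have h2 := mul_nonneg hη0.le (hs0 z hz.2)
    linarith
  · intro a r hr hsub
    exact mean_min hΦd hr hsub
  · rintro ζ ⟨hζ, hζm⟩ δ hδ
    have hζm' : ζ.re = m := hζm
    have hkey : ∀ y, y < |ζ.im| → y ∈ S := by
      intro y hy w hw
      have hcl := Metric.mem_closure_iff.1 (frontier_subset_closure hζ) (min (m - w.re) (|ζ.im| - y))
        (lt_min (by linarith [hw.1]) (by linarith))
      obtain ⟨z, hz, hd⟩ := hcl
      have h1 : |(ζ - z).re| ≤ ‖ζ - z‖ := Complex.abs_re_le_norm _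
      have h2 : |(ζ - z).im| ≤ ‖ζ - z‖ := Complex.abs_im_le_norm _
      rw [← dist_eq_norm] at h1 h2
      rw [Complex.sub_re] at h1
      rw [Complex.sub_im] at h2
      have h3 := lt_of_lt_of_le hd (min_le_left _ _)
      have h4 := lt_of_lt_of_le hd (min_le_right _ _)
      refine hG.2 z hz.1 w ?_ ?_
      · have := (abs_le.1 h1).2
        linarith
      · have h5 : |ζ.im| ≤ |ζ.im - z.im| + |z.im| := by
          calc |ζ.im| = |(ζ.im - z.im) + z.im| := by ring_nf
            _ ≤ _ := abs_add_le _ _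
        have := hw.2
        linarith
    have hle : |ζ.im| ≤ H := le_of_forall_lt fun y hy => by
      obtain ⟨y', h1, h2⟩ := exists_between hy
      exact lt_of_lt_of_le h1 (le_csSup hSb (hkey y' h2))
    rcases hle.lt_or_eq with hlt | heq
    · -- inside of the opening
      obtain ⟨y, hy, hy2⟩ := exists_lt_of_lt_csSup ⟨c, hcS⟩ hlt
      have hζW : ζ ∈ Wd G m := Or.inr ⟨y, hy2, hy⟩
      have hat : ContinuousAt φ ζ := (hφ.1.differentiableAt (hDm.1.mem_nhds hζW)).continuousAt
      have hFat : ContinuousAt F (φ ζ) :=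
        (hFd.differentiableAt (isOpen_ball.mem_nhds (hmaps hζW))).continuousAt
      have hre0 : (φ ζ).re = 0 := by
        have h1 := hφr ζ hζW
        have h2 : rf m ζ = ζ := by
          unfold rf
          refine Complex.ext ?_ rfl
          simp only
          linarith
        rw [h2] at h1
        have h3 := congrArg Complex.re h1
        rw [Complex.neg_re, Complex.conj_re] at h3
        linarith
      have hval : (F (φ ζ)).re = 1 := by
        rw [hF _ (hmaps hζW)]
        unfold U0
        rw [hre0]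
        simp
      have hev : ∀ᶠ z in 𝓝 ζ, 1 - δ < (F (φ z)).re := by
        have hc1 : ContinuousAt (fun z => (F (φ z)).re) ζ :=
          Complex.continuous_re.continuousAt.comp (ContinuousAt.comp (g := F) (f := φ) hFat hat)
        refine hc1.eventually_const_lt ?_
        show 1 - δ < (F (φ ζ)).re
        rw [hval]
        linarith
      filter_upwards [nhdsWithin_le_nhds hev, self_mem_nhdsWithin] with z hz1 hz2
      refine lt_min (by linarith) ?_
      rw [hΦre z hz2, ← hF _ (hmaps (hCW hz2))]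
      have := mul_nonneg hη0.le (hs0 z hz2.2)
      linarith
    · -- the ends of the opening
      have hcase : ζ = pp ∨ ζ = pm := by
        rcases le_total 0 ζ.im with h0 | h0
        · left
          rw [abs_of_nonneg h0] at heq
          exact Complex.ext hζm' heq
        · right
          rw [abs_of_nonpos h0] at heq
          refine Complex.ext hζm' ?_
          simp only [hpm]
          linarith
      have hne : 𝓝[C] ζ ≤ 𝓝[≠] ζ := by
        refine nhdsWithin_mono ζ fun z hz => ?_
        intro h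
        have h1 : z = ζ := h
        have h2 := hz.2
        rw [h1, hζm'] at h2
        exact lt_irrefl _ h2
      have hbig : ∀ᶠ z in 𝓝[C] ζ, 1 / η ≤ s z := by
        rcases hcase with h | h
        · filter_upwards [hne (log_large ζ (1 / η)), self_mem_nhdsWithin] with z hz1 hz2
          have := hs2 z hz2.2
          rw [h] at hz1
          simp only [hs]
          linarith
        · filter_upwards [hne (log_large ζ (1 / η)), self_mem_nhdsWithin] with z hz1 hz2
          have := hs1 z hz2.2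
          rw [h] at hz1
          simp only [hs]
          linarith
      filter_upwards [hbig, self_mem_nhdsWithin] with z hz1 hz2
      refine lt_min (by linarith) ?_
      rw [hΦre z hz2]
      have h1 := U0_pos (φ z)
      have h2 : η * (1 / η) ≤ η * s z := mul_le_mul_of_nonneg_left hz1 hη0.le
      have h3 : η * (1 / η) = 1 := by field_simp
      linarith
  · -- the value at `0`
    have h0W : (0 : ℂ) ∈ Wd G m := hCW h0C
    have hmW : (m : ℂ) ∈ Wd G m := hstrip _ (by simpa using hc)
    have hq := (hQB (Wd G m) (m : ℂ) 0 hDm hmW h0W).1 φ hφ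
    have hm0 : (0 : ℂ) ≠ (m : ℂ) := by
      intro h
      have : m = 0 := by exact_mod_cast h.symm
      linarith
    have hρ : m * qn (Wd G m) m 0 = ‖φ 0‖ := by
      rw [hq, dslope_of_ne _ hm0, slope_def_field, hφ.2.2.2, sub_zero, zero_sub, norm_div, norm_neg,
        Complex.norm_real, Real.norm_of_nonneg hm.le]
      field_simp
    have himz : (φ 0).im = 0 := by
      have h1 := hφc 0 h0W
      rw [map_zero] at h1
      have h2 := congrArg Complex.im h1
      rw [Complex.conj_im] at h2
      linarith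
    have hneg := hφn 0 h0W (by simpa using hm)
    have hφ0 : φ 0 = -((‖φ 0‖ : ℝ) : ℂ) := by
      have h1 : φ 0 = (((φ 0).re : ℝ) : ℂ) := Complex.ext (by simp) (by simpa using himz)
      have h2 : ‖φ 0‖ = -(φ 0).re := by
        conv_lhs => rw [h1]
        rw [Complex.norm_real, Real.norm_of_nonpos hneg.le]
      rw [h2]
      push_cast
      rw [neg_neg]
      exact h1
    have hlt1 : ‖φ 0‖ < 1 := by
      have := hmaps h0W
      rwa [mem_ball_zero_iff] at this
    have hU' := hU ‖φ 0‖ (norm_nonneg _) hlt1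
    rw [← hφ0] at hU'
    calc u 0 ≤ (Φ 0).re := min_le_right _ _
      _ = U0 (φ 0) + η * s 0 := hΦre 0 h0C
      _ ≤ _ := by rw [hU', hρ]; linarith

end Pool.Agent.Q210.HM
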